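import Pool.Agent.Helper87.KS.Defs

set_option autoImplicit false

/-!
# Project KS, Lemma P: power series with bounded coefficients and their logarithmic derivative

Gauss norms of slope `p` on power series, Padé approximation and the lemma:
if `z Ψ' = (A + g) Ψ` with `Ψ₀ = 1`, `v(Ψ_r) ≥ r p - B`, `A` a polynomial over `R`, `g` a power series
over `k`, then there are constants `c_n` with `v(A_n + c_n) ≥ n p`.
-/

namespace Pool.Agent.Helper93.KS

open Pool.Agent.Helper87.KS

section GaussNorm

variable {k R : Type*} [Field k] [CommRing R] [Algebra k R]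

/-- `v(U_n) ≥ n p - q` for all `n`. -/
def GB (v : RVal k R) (p q : ℤ) (U : PowerSeries R) : Prop :=
  ∀ n : ℕ, v.Ge (n * p - q) (PowerSeries.coeff n U)

variable {v : RVal k R} {p q q' : ℤ} {U V : PowerSeries R}

lemma GB.mono (h : GB v p q U) (hq : q ≤ q') : GB v p q' U :=
  fun n => (h n).mono (by linarith)

lemma GB.add (h : GB v p q U) (h' : GB v p q V) : GB v p q (U + V) := fun n => by
  rw [map_add]
  exact (h n).add (h' n)

lemma GB.sub (h : GB v p q U) (h' : GB v p q V) : GB v p q (U - V) := fun n => by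
  rw [map_sub]
  exact (h n).sub (h' n)

lemma GB.mul (h : GB v p q U) (h' : GB v p q' V) : GB v p (q + q') (U * V) := fun n => by
  rw [PowerSeries.coeff_mul]
  refine RVal.Ge.sum fun x hx => ?_
  rw [Finset.HasAntidiagonal.mem_antidiagonal] at hx
  refine ((h x.1).mul (h' x.2)).mono (le_of_eq ?_)
  rw [← hx]
  push_cast
  ring

/-- The index `m` is the first one where the minimum of the `v(U_n) - n p` is attained. -/
def FirstMin (v : RVal k R) (p : ℤ) (U : PowerSeries R) (m : ℕ) : Prop :=
  PowerSeries.coeff m U ≠ 0 ∧ GB v p (m * p - v (PowerSeries.coeff m U)) U ∧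
    ∀ n < m, v.Ge (n * p - (m * p - v (PowerSeries.coeff m U)) + 1) (PowerSeries.coeff n U)

lemma exists_firstMin (h : GB v p q U) (hU : U ≠ 0) : ∃ m, FirstMin v p U m := by
  classical
  obtain ⟨n₀, hn₀⟩ : ∃ n, PowerSeries.coeff n U ≠ 0 := by
    by_contra hcon
    push Not at hcon
    exact hU (PowerSeries.ext fun n => by rw [hcon n, map_zero])
  -- the values `v(U_n) - n p + q` are natural numbers
  let P : ℕ → Prop := fun t => ∃ n, PowerSeries.coeff n U ≠ 0 ∧
    v (PowerSeries.coeff n U) - n * p + q = t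
  have hP : ∃ t, P t := by
    have h1 := h n₀
    rw [RVal.ge_iff hn₀] at h1
    exact ⟨(v (PowerSeries.coeff n₀ U) - n₀ * p + q).toNat, n₀, hn₀, by
      rw [Int.toNat_of_nonneg (by linarith)]⟩
  have hQ : ∃ n, PowerSeries.coeff n U ≠ 0 ∧
      v (PowerSeries.coeff n U) - n * p + q = (Nat.find hP : ℕ) := Nat.find_spec hP
  have hmin : ∀ n, PowerSeries.coeff n U ≠ 0 →
      ((Nat.find hP : ℕ) : ℤ) ≤ v (PowerSeries.coeff n U) - n * p + q := by
    intro n hn
    have h1 := h n
    rw [RVal.ge_iff hn] at h1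
    have h2 : P (v (PowerSeries.coeff n U) - n * p + q).toNat := ⟨n, hn, by
      rw [Int.toNat_of_nonneg (by linarith)]⟩
    have h3 := Nat.find_min' hP h2
    have h4 : ((Nat.find hP : ℕ) : ℤ) ≤ ((v (PowerSeries.coeff n U) - n * p + q).toNat : ℕ) := by
      exact_mod_cast h3
    rw [Int.toNat_of_nonneg (by linarith)] at h4
    exact h4
  set m := Nat.find hQ with hm
  obtain ⟨hm0, hmv⟩ := Nat.find_spec hQ
  rw [← hm] at hm0 hmv
  refine ⟨m, hm0, fun n => ?_, fun n hn => ?_⟩
  · by_cases hn0 : PowerSeries.coeff n U = 0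
    · rw [hn0]; exact RVal.Ge.zero
    · rw [RVal.ge_iff hn0]
      have h1 := hmin n hn0
      linarith
  · by_cases hn0 : PowerSeries.coeff n U = 0
    · rw [hn0]; exact RVal.Ge.zero
    · rw [RVal.ge_iff hn0]
      have h1 := hmin n hn0
      have h2 := Nat.find_min hQ hn
      push Not at h2
      have h3 := h2 hn0
      have h4 : ((Nat.find hP : ℕ) : ℤ) < v (PowerSeries.coeff n U) - n * p + q :=
        lt_of_le_of_ne h1 (Ne.symm h3)
      omega

/-- The Gauss lemma. -/
lemma FirstMin.mul [IsDomain R] {m m' : ℕ} (h : FirstMin v p U m) (h' : FirstMin v p V m') :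
    ¬ v.Ge (v (PowerSeries.coeff m U) + v (PowerSeries.coeff m' V) + 1)
      (PowerSeries.coeff (m + m') (U * V)) := by
  classical
  intro hcon
  have hmem : (m, m') ∈ Finset.HasAntidiagonal.antidiagonal (m + m') := by simp
  rw [PowerSeries.coeff_mul, ← Finset.add_sum_erase _ _ hmem] at hcon
  have hrest : v.Ge (v (PowerSeries.coeff m U) + v (PowerSeries.coeff m' V) + 1)
      (∑ x ∈ (Finset.HasAntidiagonal.antidiagonal (m + m')).erase (m, m'),
        PowerSeries.coeff x.1 U * PowerSeries.coeff x.2 V) := by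
    refine RVal.Ge.sum fun x hx => ?_
    rw [Finset.mem_erase, Finset.HasAntidiagonal.mem_antidiagonal] at hx
    obtain ⟨hne, hsum⟩ := hx
    have hs : (x.1 : ℤ) + x.2 = m + m' := by exact_mod_cast hsum
    rcases lt_trichotomy x.1 m with hlt | heq | hgt
    · refine ((h.2.2 x.1 hlt).mul (h'.2.1 x.2)).mono (le_of_eq ?_)
      have : (x.2 : ℤ) = m + m' - x.1 := by linarith
      rw [this]
      ring
    · exfalso
      apply hne
      have h2 : x.2 = m' := by omega
      exact Prod.ext heq h2
    · have hlt : x.2 < m' := by omega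
      refine ((h.2.1 x.1).mul (h'.2.2 x.2 hlt)).mono (le_of_eq ?_)
      have : (x.2 : ℤ) = m + m' - x.1 := by linarith
      rw [this]
      ring
  have h1 := hcon.sub hrest
  rw [add_sub_cancel_right, RVal.ge_iff (mul_ne_zero h.1 h'.1), RVal.map_mul _ h.1 h'.1] at h1
  omega

end GaussNorm

section Pade

variable {k : Type*} [Field k]

/-- Padé approximation. -/
lemma pade (g : PowerSeries k) (M : ℕ) : ∃ P Q : Polynomial k, P ≠ 0 ∧ P.natDegree ≤ M ∧
    Q.natDegree ≤ M ∧ ∀ n ≤ 2 * M,
      PowerSeries.coeff n ((P : PowerSeries k) * g - (Q : PowerSeries k)) = 0 := by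
  classical
  let f : Polynomial.degreeLT k (M + 1) →ₗ[k] (Fin M → k) :=
    { toFun := fun P j => PowerSeries.coeff (M + 1 + j) ((P.1 : PowerSeries k) * g)
      map_add' := fun P P' => by
        funext j
        simp [add_mul]
      map_smul' := fun c P => by
        funext j
        simp }
  have hker : LinearMap.ker f ≠ ⊥ := by
    apply LinearMap.ker_ne_bot_of_finrank_lt
    rw [Module.finrank_fin_fun, LinearEquiv.finrank_eq (Polynomial.degreeLTEquiv k (M + 1)),
      Module.finrank_fin_fun]
    exact Nat.lt_succ_self M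
  obtain ⟨P, hP, hP0⟩ := Submodule.exists_mem_ne_zero_of_ne_bot hker
  have hP1 : P.1 ≠ 0 := fun h => hP0 (Subtype.ext h)
  have hdeg := P.2
  rw [Polynomial.mem_degreeLT] at hdeg
  have hPn : P.1.natDegree ≤ M := by
    have h1 := (Polynomial.natDegree_lt_iff_degree_lt hP1).2 hdeg
    omega
  refine ⟨P.1, PowerSeries.trunc (M + 1) ((P.1 : PowerSeries k) * g), hP1, hPn, ?_, fun n hn => ?_⟩
  · have h1 := PowerSeries.natDegree_trunc_lt ((P.1 : PowerSeries k) * g) M
    omega
  · rw [map_sub, Polynomial.coeff_coe, PowerSeries.coeff_trunc]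
    split_ifs with h1
    · rw [sub_self]
    · rw [sub_zero]
      obtain ⟨j, rfl⟩ : ∃ j, n = M + 1 + j := ⟨n - (M + 1), by omega⟩
      have hj : j < M := by omega
      have h2 := congrFun (LinearMap.mem_ker.1 hP) ⟨j, hj⟩
      exact h2

end Pade

section Main

variable {k R : Type*} [Field k] [CommRing R] [Algebra k R]

/-- The power series over `R` with coefficients in `k`. -/
noncomputable abbrev toR (R : Type*) [CommRing R] [Algebra k R] : PowerSeries k →+* PowerSeries R :=
  PowerSeries.map (algebraMap k R)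

lemma coeff_toR (g : PowerSeries k) (n : ℕ) :
    PowerSeries.coeff n (toR R g) = algebraMap k R (PowerSeries.coeff n g) :=
  PowerSeries.coeff_map _ _ _

/-- `z Ψ'`. -/
noncomputable def eu (Ψ : PowerSeries R) : PowerSeries R :=
  PowerSeries.mk fun n => (n : R) * PowerSeries.coeff n Ψ

lemma coeff_eu (Ψ : PowerSeries R) (n : ℕ) :
    PowerSeries.coeff n (eu Ψ) = (n : R) * PowerSeries.coeff n Ψ :=
  PowerSeries.coeff_mk _ _

lemma GB.eu {v : RVal k R} {p q : ℤ} {Ψ : PowerSeries R} (h : GB v p q Ψ) :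
    GB v p q (eu Ψ) := fun n => by
  rw [coeff_eu]
  have h1 : (n : R) = algebraMap k R (n : k) := by simp
  rw [h1, ← Algebra.smul_def]
  exact (h n).smul _

/-- Constant polynomials. -/
lemma GB.poly {v : RVal k R} {p : ℤ} (hp : 0 ≤ p) {P : Polynomial k} {d : ℕ}
    (hd : P.natDegree ≤ d) : GB v p (d * p) (toR R (P : PowerSeries k)) := fun n => by
  rw [coeff_toR, Polynomial.coeff_coe]
  by_cases hn : n ≤ d
  · refine RVal.ge_const ?_ _
    have h1 : (n : ℤ) ≤ d := by exact_mod_cast hn
    nlinarith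
  · rw [Polynomial.coeff_eq_zero_of_natDegree_lt (by omega), map_zero]
    exact RVal.Ge.zero

lemma exists_lower (v : RVal k R) (A : Polynomial R) : ∃ κ : ℕ, ∀ n, v.Ge (-(κ : ℤ)) (A.coeff n) := by
  classical
  refine ⟨∑ n ∈ A.support, (v (A.coeff n)).natAbs, fun n => ?_⟩
  by_cases hn : A.coeff n = 0
  · rw [hn]; exact RVal.Ge.zero
  · rw [RVal.ge_iff hn]
    have h1 : (v (A.coeff n)).natAbs ≤ ∑ n ∈ A.support, (v (A.coeff n)).natAbs :=
      Finset.single_le_sum (f := fun n => (v (A.coeff n)).natAbs) (fun _ _ => Nat.zero_le _)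
        (Polynomial.mem_support_iff.2 hn)
    have h2 : -((v (A.coeff n)).natAbs : ℤ) ≤ v (A.coeff n) := by omega
    have h3 : (((v (A.coeff n)).natAbs : ℕ) : ℤ) ≤
      ((∑ n ∈ A.support, (v (A.coeff n)).natAbs : ℕ) : ℤ) := by exact_mod_cast h1
    linarith

/-- The series `g` is rational. -/
lemma rational [IsDomain R] {v : RVal k R} {p B : ℤ} (hp : 0 < p) {Ψ : PowerSeries R}
    {A : Polynomial R} {g : PowerSeries k} (h0 : PowerSeries.coeff 0 Ψ = 1) (hΨ : GB v p B Ψ)
    (hd : eu Ψ = ((A : PowerSeries R) + toR R g) * Ψ) :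
    ∃ P Q : Polynomial k, P ≠ 0 ∧ (P : PowerSeries k) * g = (Q : PowerSeries k) := by
  classical
  obtain ⟨κ, hκ⟩ := exists_lower v A
  set N := A.natDegree with hN
  set M : ℕ := N + B.natAbs + κ with hM
  obtain ⟨P, Q, hP0, hP, hQ, hPQ⟩ := pade g M
  refine ⟨P, Q, hP0, ?_⟩
  by_contra hne
  set D : PowerSeries k := (P : PowerSeries k) * g - (Q : PowerSeries k) with hD
  have hD0 : D ≠ 0 := sub_ne_zero.2 hne
  -- the order of `D`
  have hex : ∃ n, PowerSeries.coeff n D ≠ 0 := by
    by_contra hcon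
    push Not at hcon
    exact hD0 (PowerSeries.ext fun n => by rw [hcon n, map_zero])
  set L := Nat.find hex with hL
  have hL0 : PowerSeries.coeff L D ≠ 0 := Nat.find_spec hex
  have hLlt : ∀ n < L, PowerSeries.coeff n D = 0 := by
    intro n hn
    have := Nat.find_min hex hn
    push Not at this
    exact this
  have hLM : 2 * M + 1 ≤ L := by
    by_contra hcon
    exact hL0 (hPQ L (by omega))
  -- the identity
  have hid : toR R D * Ψ = toR R (P : PowerSeries k) * eu Ψ -
      toR R (P : PowerSeries k) * ((A : PowerSeries R) * Ψ) - toR R (Q : PowerSeries k) * Ψ := by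
    rw [hD, map_sub, map_mul, hd]
    ring
  -- the coefficient of index `L`
  have hco : PowerSeries.coeff L (toR R D * Ψ) = algebraMap k R (PowerSeries.coeff L D) := by
    rw [PowerSeries.coeff_mul, Finset.sum_eq_single (L, 0)]
    · rw [coeff_toR, h0, mul_one]
    · intro x hx hne'
      rw [Finset.HasAntidiagonal.mem_antidiagonal] at hx
      have h1 : x.1 < L := by
        rcases Nat.lt_or_ge x.1 L with h | h
        · exact h
        · exfalso
          apply hne'
          exact Prod.ext (by omega) (by omega)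
      rw [coeff_toR, hLlt _ h1, map_zero, zero_mul]
    · intro h
      exact absurd (Finset.HasAntidiagonal.mem_antidiagonal.2 (by simp)) h
  -- the bound
  have hA : GB v p (N * p + κ) (A : PowerSeries R) := fun n => by
    rw [Polynomial.coeff_coe]
    by_cases hn : n ≤ N
    · refine (hκ n).mono ?_
      have h1 : (n : ℤ) ≤ N := by exact_mod_cast hn
      nlinarith
    · rw [Polynomial.coeff_eq_zero_of_natDegree_lt (by omega)]
      exact RVal.Ge.zero
  have hPG : GB v p (M * p) (toR R (P : PowerSeries k)) := GB.poly hp.le hP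
  have hQG : GB v p (M * p) (toR R (Q : PowerSeries k)) := GB.poly hp.le hQ
  have hN0 : (0 : ℤ) ≤ N * p + κ := by positivity
  have hbound : GB v p (M * p + (N * p + κ) + B) (toR R D * Ψ) := by
    rw [hid]
    refine GB.sub (GB.sub ?_ ?_) ?_
    · exact (hPG.mul hΨ.eu).mono (by linarith)
    · exact (hPG.mul (hA.mul hΨ)).mono (by linarith)
    · exact (hQG.mul hΨ).mono (by linarith)
  have hL1 := hbound L
  rw [hco] at hL1
  have hne0 : algebraMap k R (PowerSeries.coeff L D) ≠ 0 := by
    rw [Ne, map_eq_zero_iff _ (algebraMap k R).injective]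
    exact hL0
  rw [RVal.ge_iff hne0, RVal.map_const] at hL1
  have h2 : (2 * (M : ℤ) + 1) ≤ L := by exact_mod_cast hLM
  have h3 : (M : ℤ) = N + B.natAbs + κ := by rw [hM]; push_cast; ring
  have h4 : B ≤ (B.natAbs : ℤ) := by omega
  have h5 : (2 * (M : ℤ) + 1) * p ≤ L * p := mul_le_mul_of_nonneg_right h2 hp.le
  have h6 : (2 * (M : ℤ) + 1) * p - (M * p + (N * p + κ) + B) =
      ((B.natAbs : ℤ) + κ + 1) * p - κ - B := by rw [h3]; ring
  have h7 : ((B.natAbs : ℤ) + κ + 1) * 1 ≤ ((B.natAbs : ℤ) + κ + 1) * p :=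
    mul_le_mul_of_nonneg_left (by omega) (by positivity)
  linarith

/-- If `w(F) < 0` then `w(F Ψ) < w(Ψ)`. -/
lemma gauss_step [IsDomain R] {v : RVal k R} {p q : ℤ} {F Ψ : PowerSeries R} {m : ℕ}
    (hF : GB v p q F) (hm : FirstMin v p Ψ m)
    (h : GB v p (m * p - v (PowerSeries.coeff m Ψ)) (F * Ψ)) : GB v p 0 F := by
  classical
  by_cases hF0 : F = 0
  · intro n
    rw [hF0, map_zero]
    exact RVal.Ge.zero
  obtain ⟨a, ha⟩ := exists_firstMin hF hF0
  have h1 := ha.mul hm
  have h2 := h (a + m)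
  by_cases hcon : (a : ℤ) * p - v (PowerSeries.coeff a F) ≤ 0
  · exact ha.2.1.mono hcon
  · exfalso
    apply h1
    refine h2.mono ?_
    push_cast
    linarith

theorem lemmaP {J : Type*} [IsDomain R] (v : J → RVal k R) (p B : J → ℤ) (hp : ∃ i, 0 < p i)
    (Ψ : PowerSeries R) (A : Polynomial R) (g : PowerSeries k)
    (h0 : PowerSeries.coeff 0 Ψ = 1)
    (hΨ : ∀ i (r : ℕ), (v i).Ge (r * p i - B i) (PowerSeries.coeff r Ψ))
    (hd : ∀ n : ℕ, (n : R) * PowerSeries.coeff n Ψ = PowerSeries.coeff n
      (((A : PowerSeries R) + PowerSeries.map (algebraMap k R) g) * Ψ)) :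
    ∃ c : ℕ → k, ∀ i (n : ℕ), (v i).Ge (n * p i) (A.coeff n + algebraMap k R (c n)) := by
  classical
  have hd' : eu Ψ = ((A : PowerSeries R) + toR R g) * Ψ := by
    ext n
    rw [coeff_eu]
    exact hd n
  have hΨ0 : Ψ ≠ 0 := by
    rintro rfl
    rw [map_zero] at h0
    exact zero_ne_one h0
  obtain ⟨i₀, hi₀⟩ := hp
  obtain ⟨P, Q, hP0, hPQ⟩ := rational hi₀ h0 (hΨ i₀) hd'
  set C : Polynomial k := Q / P with hC
  set S : Polynomial k := Q % P with hS
  have hdiv : P * C + S = Q := EuclideanDomain.div_add_mod Q P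
  have hdeg : S.degree < P.degree := Polynomial.degree_mod_lt Q hP0
  refine ⟨fun n => C.coeff n, fun i n => ?_⟩
  obtain ⟨m, hm⟩ := exists_firstMin (hΨ i : GB (v i) (p i) (B i) Ψ) hΨ0
  rcases le_or_gt (p i) 0 with hpi | hpi
  · -- slope `≤ 0`
    have hg : GB (v i) (p i) 0 (toR R g) := fun n => by
      rw [coeff_toR]
      refine RVal.ge_const ?_ _
      have : (0 : ℤ) ≤ n := by positivity
      nlinarith
    have hAg : GB (v i) (p i) (m * p i - v i (PowerSeries.coeff m Ψ)) ((A : PowerSeries R) * Ψ) := by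
      have h1 : (A : PowerSeries R) * Ψ = eu Ψ - toR R g * Ψ := by
        rw [hd']
        ring
      rw [h1]
      exact hm.2.1.eu.sub ((hg.mul hm.2.1).mono (by linarith))
    obtain ⟨κ, hκ⟩ := exists_lower (v i) A
    have hA0 : GB (v i) (p i) κ (A : PowerSeries R) := fun n => by
      rw [Polynomial.coeff_coe]
      refine (hκ n).mono ?_
      have : (0 : ℤ) ≤ n := by positivity
      nlinarith
    have hA1 := gauss_step hA0 hm hAg n
    rw [Polynomial.coeff_coe, sub_zero] at hA1
    refine hA1.add (RVal.ge_const ?_ _)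
    have : (0 : ℤ) ≤ n := by positivity
    nlinarith
  · -- slope `> 0`
    set F : PowerSeries R := (A : PowerSeries R) + toR R (C : PowerSeries k) with hF
    set d := P.natDegree with hdd
    have hPF : FirstMin (v i) (p i) (toR R (P : PowerSeries k)) d := by
      have hlead : PowerSeries.coeff d (toR R (P : PowerSeries k)) ≠ 0 := by
        rw [coeff_toR, Polynomial.coeff_coe, Ne, map_eq_zero_iff _ (algebraMap k R).injective]
        exact Polynomial.leadingCoeff_ne_zero.2 hP0
      have hval : v i (PowerSeries.coeff d (toR R (P : PowerSeries k))) = 0 := by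
        rw [coeff_toR, RVal.map_const]
      refine ⟨hlead, ?_, fun n hn => ?_⟩
      · rw [hval, sub_zero]
        exact GB.poly hpi.le le_rfl
      · rw [hval, coeff_toR]
        refine RVal.ge_const ?_ _
        have h1 : (n : ℤ) + 1 ≤ d := by exact_mod_cast hn
        nlinarith
    have hvalP : v i (PowerSeries.coeff d (toR R (P : PowerSeries k))) = 0 := by
      rw [coeff_toR, RVal.map_const]
    have hSG : GB (v i) (p i) (d * p i) (toR R (S : PowerSeries k)) := by
      refine GB.poly hpi.le ?_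
      by_cases hS0 : S = 0
      · rw [hS0]; simp
      · exact (Polynomial.natDegree_lt_natDegree hS0 hdeg).le
    have hid : toR R (P : PowerSeries k) * (F * Ψ) =
        toR R (P : PowerSeries k) * eu Ψ - toR R (S : PowerSeries k) * Ψ := by
      have h1 : toR R (P : PowerSeries k) * toR R g =
          toR R (P : PowerSeries k) * toR R (C : PowerSeries k) + toR R (S : PowerSeries k) := by
        rw [← map_mul, hPQ, ← hdiv, Polynomial.coe_add, Polynomial.coe_mul, map_add, map_mul]
      rw [hd', hF]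
      linear_combination (-Ψ) * h1
    set qΨ : ℤ := m * p i - v i (PowerSeries.coeff m Ψ) with hqΨ
    have hb : GB (v i) (p i) (d * p i + qΨ) (toR R (P : PowerSeries k) * (F * Ψ)) := by
      rw [hid]
      exact (GB.mul (GB.poly hpi.le le_rfl) hm.2.1.eu).sub (hSG.mul hm.2.1)
    -- `F` is bounded
    obtain ⟨κ, hκ⟩ := exists_lower (v i) A
    have hFb : GB (v i) (p i) ((A.natDegree + C.natDegree : ℕ) * p i + κ) F := by
      refine GB.add ?_ ?_
      · intro n
        rw [Polynomial.coeff_coe]
        by_cases hn : n ≤ A.natDegree + C.natDegree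
        · refine (hκ n).mono ?_
          have h1 : (n : ℤ) ≤ (A.natDegree + C.natDegree : ℕ) := by exact_mod_cast hn
          nlinarith
        · rw [Polynomial.coeff_eq_zero_of_natDegree_lt (by omega)]
          exact RVal.Ge.zero
      · refine (GB.poly hpi.le (d := A.natDegree + C.natDegree) (by omega)).mono ?_
        linarith [(Nat.cast_nonneg κ : (0 : ℤ) ≤ κ)]
    have hFΨ : GB (v i) (p i) qΨ (F * Ψ) := by
      by_cases h0' : F * Ψ = 0
      · intro n
        rw [h0', map_zero]
        exact RVal.Ge.zero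
      obtain ⟨a, ha⟩ := exists_firstMin (hFb.mul hm.2.1) h0'
      have h1 := hPF.mul ha
      by_cases hcon : (a : ℤ) * p i - v i (PowerSeries.coeff a (F * Ψ)) ≤ qΨ
      · exact ha.2.1.mono hcon
      · exfalso
        apply h1
        refine (hb (d + a)).mono ?_
        rw [hvalP]
        push_cast
        linarith
    have hF1 := gauss_step hFb hm hFΨ n
    rw [sub_zero, hF, map_add, Polynomial.coeff_coe, coeff_toR, Polynomial.coeff_coe] at hF1
    exact hF1

end Main

end Pool.Agent.Helper93.KS
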